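import Pool.Agent.Helper308.QS4

/-!
# Signed part sums over the partitions with distinct odd parts, modulo `7`

With `f_k = ∏ (1 - q^(ki))` one has `∑ (-1)^m S(m) q^m = (q d/dq f_1) / f_2^2` (the partitions are
weighted in the dual numbers). Hence `6 f_1^7 ∑ (-1)^m S(m) q^m = (q d/dq (2 f_1^3)) (f_1^5 / f_2^2)`,
where `2 f_1^3 = ∑ (-1)^k (2k+1) q^(k(k+1)/2)` and `f_1^5 / f_2^2 = ∑ (6n+1) q^(n(3n+1)/2)`, both
sums over the integers. Every term of the product with exponent `0` or `5` modulo `7` is divisible by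
`7`, and `f_1^7` is a series in `q^7` modulo `7`.
-/

set_option autoImplicit false

namespace Pool.Agent.Results.MP_ec0d67_nt.ModSeven

/-- no odd part occurs more than once -/
def OddDistinct {m : ℕ} (p : m.Partition) : Prop :=
  ∀ i ∈ p.parts, i % 2 = 1 → p.parts.count i ≤ 1

instance {m : ℕ} (p : m.Partition) : Decidable (OddDistinct p) := by
  unfold OddDistinct; infer_instance

/-- the sum of the odd parts minus the sum of the even parts (with multiplicity) -/
def w {m : ℕ} (p : m.Partition) : ℤ :=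
  (p.parts.map fun i : ℕ => if i % 2 = 1 then (i : ℤ) else -(i : ℤ)).sum

/-- the sum of `w` over the odd-distinct partitions of `m` -/
def S (m : ℕ) : ℤ := ∑ p : m.Partition with OddDistinct p, w p

open Finset PowerSeries Pool.Agent.Helper308.QS TrivSqZeroExt
open scoped PowerSeries.WithPiTopology

/-- the dual numbers -/
abbrev D := DualNumber ℤ

/-- the character of the generating function -/
def chi (i c : ℕ) : D :=
  if i % 2 = 1 then (if c = 1 then -(1 + inr (i : ℤ)) else 0) else 1 - inr ((c : ℤ) * i)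

theorem inr_mul_inr' (a b : ℤ) : (inr a : D) * inr b = 0 := inr_mul_inr _ _ _

theorem prod_one_add {ι : Type*} (s : Finset ι) (g : ι → ℤ) :
    ∏ i ∈ s, (1 + (inr (g i) : D)) = 1 + inr (∑ i ∈ s, g i) := by
  classical
  induction s using Finset.induction_on with
  | empty => simp
  | insert a s ha ih =>
    rw [prod_insert ha, sum_insert ha, ih, inr_add]
    linear_combination inr_mul_inr' (g a) (∑ i ∈ s, g i)

theorem neg_one_pow_sum {ι : Type*} (s : Finset ι) (g : ι → ℕ) :
    ∏ i ∈ s, (-1 : D) ^ (g i) = (-1) ^ (∑ i ∈ s, g i) := Finset.prod_pow_eq_pow_sum _ _ _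

theorem w_eq {m : ℕ} (p : m.Partition) : w p = ∑ i ∈ p.parts.toFinset,
    (p.parts.count i : ℤ) * (if i % 2 = 1 then (i : ℤ) else -(i : ℤ)) := by
  unfold w
  rw [Finset.sum_multiset_map_count]
  refine sum_congr rfl fun i _ => ?_
  rw [nsmul_eq_mul]

theorem m_eq {m : ℕ} (p : m.Partition) : ∑ i ∈ p.parts.toFinset, p.parts.count i * i = m := by
  have h := p.parts_sum
  rw [← Multiset.map_id p.parts, Finset.sum_multiset_map_count] at h
  simp only [smul_eq_mul, id] at h
  simpa using h

/-- the weight of a partition -/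
theorem prod_chi {m : ℕ} (p : m.Partition) : p.parts.toFinsupp.prod chi =
    if OddDistinct p then (-1) ^ m * (1 + inr (w p)) else 0 := by
  rw [Finsupp.prod]
  simp only [Multiset.toFinsupp_support, Multiset.toFinsupp_apply]
  split_ifs with h
  · have h1 : ∀ i ∈ p.parts.toFinset, chi i (p.parts.count i) = (-1) ^ (p.parts.count i * i) *
        (1 + inr ((p.parts.count i : ℤ) * (if i % 2 = 1 then (i : ℤ) else -(i : ℤ)))) := by
      intro i hi
      rw [Multiset.mem_toFinset] at hi
      have hc := Multiset.one_le_count_iff_mem.2 hi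
      unfold chi
      by_cases hodd : i % 2 = 1
      · have hc1 : p.parts.count i = 1 := le_antisymm (h i hi hodd) hc
        rw [if_pos hodd, if_pos hodd, if_pos hc1, hc1, one_mul, Nat.cast_one, one_mul,
          (Nat.odd_iff.2 hodd).neg_one_pow]
        ring
      · rw [if_neg hodd, if_neg hodd]
        have : Even (p.parts.count i * i) := by
          refine Even.mul_left ?_ _
          rw [Nat.even_iff]; omega
        rw [this.neg_one_pow, one_mul, mul_neg, inr_neg, sub_eq_add_neg]
    rw [prod_congr rfl h1, prod_mul_distrib, prod_one_add, ← w_eq, neg_one_pow_sum, m_eq]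
  · unfold OddDistinct at h
    push Not at h
    obtain ⟨i, hi, hodd, hc⟩ := h
    refine prod_eq_zero (Multiset.mem_toFinset.2 hi) ?_
    unfold chi
    rw [if_pos hodd, if_neg (by omega)]

/-- the generating function -/
noncomputable def G : D⟦X⟧ := Nat.Partition.genFun chi

theorem snd_coeff_G (m : ℕ) : snd (coeff m G) = (-1) ^ m * S m := by
  rw [G, Nat.Partition.coeff_genFun, sum_congr rfl fun p _ => prod_chi p, ← sum_filter, snd_sum, S,
    mul_sum]
  refine sum_congr rfl fun p _ => ?_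
  have h : ((-1 : D)) ^ m = inlHom ℤ ℤ ((-1) ^ m) := by rw [map_pow, map_neg, map_one]
  rw [h]
  simp

/-- Euler's product with the dual numbers -/
noncomputable def ED : D⟦X⟧ := pentagonalSeries D

theorem factor (i : ℕ) :
    (1 + ∑' j, chi (i + 1) (j + 1) • (X : D⟦X⟧) ^ ((i + 1) * (j + 1))) *
      (if i % 2 = 1 then (1 - X ^ (i + 1)) ^ 2 else 1) =
      1 - C (1 + inr ((i : ℤ) + 1)) * X ^ (i + 1) := by
  by_cases hi : i % 2 = 1
  · rw [if_pos hi]
    set Y : D⟦X⟧ := C (1 - inr ((i : ℤ) + 1)) * X ^ (i + 1) with hY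
    have hY0 : constantCoeff Y = 0 := by
      rw [hY, map_mul, map_pow, constantCoeff_X, zero_pow (by omega), mul_zero]
    have hpow : ∀ j : ℕ, chi (i + 1) (j + 1) • (X : D⟦X⟧) ^ ((i + 1) * (j + 1)) = Y ^ (j + 1) := by
      intro j
      rw [hY, mul_pow, ← map_pow, ← pow_mul, smul_eq_C_mul]
      congr 2
      unfold chi
      rw [if_neg (by omega)]
      have : ∀ k : ℕ, (1 - (inr ((i : ℤ) + 1) : D)) ^ k = 1 - inr ((k : ℤ) * (i + 1)) := by
        intro k
        induction k with
        | zero => simp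
        | succ k ih =>
          rw [pow_succ, ih]
          have e : ((k + 1 : ℕ) : ℤ) * (i + 1) = k * (i + 1) + (i + 1) := by push_cast; ring
          have e3 : (inr ((k : ℤ) * (i + 1) + (i + 1)) : D) =
            inr ((k : ℤ) * (i + 1)) + inr ((i : ℤ) + 1) := inr_add _ _ _
          rw [e, e3]
          linear_combination inr_mul_inr' ((k : ℤ) * (i + 1)) ((i : ℤ) + 1)
      rw [this (j + 1)]
      push_cast
      rfl
    simp_rw [hpow]
    have hs := WithPiTopology.summable_pow_of_constantCoeff_eq_zero (f := Y) hY0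
    have h1 : 1 + ∑' j, Y ^ (j + 1) = ∑' j, Y ^ j := by
      rw [hs.tsum_eq_zero_add, pow_zero]
    have h2 := WithPiTopology.tsum_pow_mul_one_sub_of_constantCoeff_eq_zero (f := Y) hY0
    rw [h1]
    have h3 : (1 - (X : D⟦X⟧) ^ (i + 1)) ^ 2 =
        (1 - Y) * (1 - C (1 + inr ((i : ℤ) + 1)) * X ^ (i + 1)) := by
      have e : (C (1 - inr ((i : ℤ) + 1)) * C (1 + inr ((i : ℤ) + 1)) : D⟦X⟧) = 1 := by
        rw [← map_mul]
        have : ((1 - inr ((i : ℤ) + 1)) * (1 + inr ((i : ℤ) + 1)) : D) = 1 := by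
          linear_combination -inr_mul_inr' ((i : ℤ) + 1) ((i : ℤ) + 1)
        rw [this, map_one]
      have e2 : (C (1 - inr ((i : ℤ) + 1)) + C (1 + inr ((i : ℤ) + 1)) : D⟦X⟧) = 2 := by
        rw [← map_add]
        have : ((1 - inr ((i : ℤ) + 1)) + (1 + inr ((i : ℤ) + 1)) : D) = 2 := by ring
        rw [this]
        exact map_ofNat C 2
      rw [hY]
      linear_combination (-(X : D⟦X⟧) ^ (i + 1) * X ^ (i + 1)) * e + (X : D⟦X⟧) ^ (i + 1) * e2
    rw [h3, ← mul_assoc, h2, one_mul]
  · rw [if_neg hi, mul_one, tsum_eq_single 0]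
    · unfold chi
      rw [if_pos (by omega), if_pos rfl, smul_eq_C_mul, zero_add, mul_one]
      push_cast
      rw [map_neg]
      ring
    · intro j hj
      unfold chi
      rw [if_pos (by omega), if_neg (by omega), zero_smul]

theorem continuous_rescale (a : D) : Continuous (rescale a : D⟦X⟧ →+* D⟦X⟧) := by
  rw [continuous_iff_continuousAt]
  intro F
  unfold ContinuousAt
  rw [WithPiTopology.tendsto_iff_coeff_tendsto]
  intro d
  simp only [coeff_rescale]
  exact ((WithPiTopology.continuous_coeff D d).tendsto F).const_mul _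

theorem continuous_expand (k : ℕ) (hk : k ≠ 0) : Continuous (expand k hk : D⟦X⟧ →ₐ[D] D⟦X⟧) := by
  rw [continuous_iff_continuousAt]
  intro F
  unfold ContinuousAt
  rw [WithPiTopology.tendsto_iff_coeff_tendsto]
  intro d
  simp only [coeff_expand]
  split_ifs with h
  · exact ((WithPiTopology.continuous_coeff D (d / k)).tendsto F)
  · exact tendsto_const_nhds

theorem G_eq : G * (expand 2 two_ne_zero ED) ^ 2 = rescale (1 + inr 1 : D) ED := by
  have h1 : HasProd (fun i ↦ 1 + ∑' j, chi (i + 1) (j + 1) • (X : D⟦X⟧) ^ ((i + 1) * (j + 1))) G :=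
    Nat.Partition.hasProd_genFun chi
  have hE : HasProd (fun i : ℕ ↦ (1 - X ^ (i + 1) : D⟦X⟧)) ED :=
    WithPiTopology.hasProd_one_sub_X_pow D
  have h2 : HasProd (fun i : ℕ => (1 : D⟦X⟧) - C (1 + inr ((i : ℤ) + 1)) * X ^ (i + 1))
      (rescale (1 + inr 1 : D) ED) := by
    have := hE.map (rescale (1 + inr 1 : D)) (continuous_rescale _)
    convert this using 2 with i
    simp only [Function.comp, map_sub, map_one, map_pow, rescale_X, mul_pow]
    congr 2
    have : ∀ k : ℕ, (1 + (inr (1 : ℤ) : D)) ^ k = 1 + inr (k : ℤ) := by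
      intro k
      induction k with
      | zero => simp
      | succ k ih =>
        rw [pow_succ, ih]
        push_cast
        rw [inr_add]
        linear_combination inr_mul_inr' (k : ℤ) 1
    rw [← map_pow, this]
    push_cast
    rfl
  have h3 : HasProd (fun k : ℕ => ((1 : D⟦X⟧) - X ^ (2 * (k + 1))) ^ 2)
      ((expand 2 two_ne_zero ED) ^ 2) := by
    have := hE.map (expand 2 two_ne_zero : D⟦X⟧ →ₐ[D] D⟦X⟧) (continuous_expand 2 two_ne_zero)
    have h4 := this.mul this
    convert h4 using 2 with i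
    · simp only [Function.comp, map_sub, map_one, map_pow, expand_X, ← pow_mul]
      rw [sq]
    · rw [sq]
  have h5 : HasProd (fun i : ℕ => if i % 2 = 1 then ((1 : D⟦X⟧) - X ^ (i + 1)) ^ 2 else 1)
      ((expand 2 two_ne_zero ED) ^ 2) := by
    have hinj : Function.Injective (fun k : ℕ => 2 * k + 1) := fun a b h => by
      simp only at h; omega
    rw [← hinj.hasProd_iff]
    · convert h3 using 2 with k
      simp only [Function.comp]
      rw [if_pos (by omega), show 2 * k + 1 + 1 = 2 * (k + 1) by ring]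
    · intro x hx
      rw [if_neg]
      intro h
      apply hx
      exact ⟨x / 2, by simp only; omega⟩
  have h6 := h1.mul h5
  simp_rw [factor] at h6
  exact h6.unique h2

theorem ED_eq : ED = PowerSeries.map (inlHom ℤ ℤ) E1 := by
  ext1 n
  rw [ED, E1, coeff_map]
  by_cases h : ∃ k, pentagonal k = n
  · obtain ⟨k, rfl⟩ := h
    rw [coeff_pentagonalSeries_pentagonal, coeff_pentagonalSeries_pentagonal]
    rcases Int.even_or_odd k with hk | hk
    · rw [Int.negOnePow_even k hk]; simp
    · rw [Int.negOnePow_odd k hk]; simp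
  · rw [coeff_pentagonalSeries_eq_zero, coeff_pentagonalSeries_eq_zero, map_zero]
    · rintro ⟨k, hk⟩; exact h ⟨k, hk⟩
    · rintro ⟨k, hk⟩; exact h ⟨k, hk⟩

/-- the signed generating function of `S` -/
noncomputable def sS : ℤ⟦X⟧ := PowerSeries.mk fun m => (-1) ^ m * S m

/-- the generating function of the numbers `S` -/
theorem sS_eq : sS * Ek 2 two_ne_zero ^ 2 = theta E1 := by
  have h := G_eq
  rw [ED_eq, ← map_expand, ← map_pow] at h
  ext n
  have h1 := congrArg (fun F => snd (coeff n F)) h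
  simp only [coeff_mul, coeff_map, coeff_rescale] at h1
  rw [theta, coeff_mk, coeff_mul]
  have h2 : snd (((1 : D) + inr (1 : ℤ)) ^ n * (inlHom ℤ ℤ) (coeff n E1)) = n * coeff n E1 := by
    have : ∀ k : ℕ, (1 + (inr (1 : ℤ) : D)) ^ k = 1 + inr (k : ℤ) := by
      intro k
      induction k with
      | zero => simp
      | succ k ih =>
        rw [pow_succ, ih]
        push_cast
        rw [inr_add]
        linear_combination inr_mul_inr' (k : ℤ) 1
    rw [this]
    simp
  rw [h2] at h1
  rw [← h1, snd_sum]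
  refine sum_congr rfl fun p _ => ?_
  rw [snd_mul, snd_coeff_G]
  simp [sS, Ek]

theorem key_mul : 6 * (sS * E1 ^ 7) = theta (2 * E1 ^ 3) * A1 := by
  have h1 : theta (2 * E1 ^ 3) = 6 * (E1 ^ 2 * theta E1) := by
    have h := theta_pow E1 2
    have h2 : theta (2 * E1 ^ 3) = 2 * theta (E1 ^ 3) := by
      ext n
      rw [theta, coeff_mk, two_mul, map_add, two_mul, map_add, theta, coeff_mk]
      ring
    rw [h2, h]
    push_cast
    ring
  rw [h1, ← sS_eq, show sS * E1 ^ 7 = sS * E1 ^ 2 * E1 ^ 5 by ring, E_five]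
  ring

theorem zmod_key : ∀ x y i j : ZMod 7, 8 * i + 1 = x ^ 2 → 24 * j + 1 = y ^ 2 →
    (i + j = 0 ∨ i + j = 5) → i * (x * y) = 0 := by decide

theorem coeff_key (m : ℕ) (hm : m % 7 = 0 ∨ m % 7 = 5) :
    ((coeff m (theta (2 * E1 ^ 3) * A1) : ℤ) : ZMod 7) = 0 := by
  rw [coeff_mul, Int.cast_sum]
  refine sum_eq_zero fun p hp => ?_
  rw [HasAntidiagonal.mem_antidiagonal] at hp
  rw [theta, coeff_mk, jacobi', A1, coeff_th gT p.1 (B := p.1 + 1) le_rfl,
    coeff_th gA p.2 (B := p.2 + 1) le_rfl, mul_assoc, sum_mul_sum, mul_sum, Int.cast_sum]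
  refine sum_eq_zero fun a _ => ?_
  rw [mul_sum, Int.cast_sum]
  refine sum_eq_zero fun b _ => ?_
  by_cases ha : eT a = p.1
  · by_cases hb : eA b = p.2
    · rw [if_pos ha, if_pos hb]
      have h1 : (8 * (p.1 : ZMod 7) + 1) = ((2 * a + 1 : ℤ) : ZMod 7) ^ 2 := by
        have e : 8 * (p.1 : ℤ) + 1 = (2 * a + 1) ^ 2 := by
          rw [← ha]; linear_combination 4 * eT_two a
        have := congrArg (Int.cast : ℤ → ZMod 7) e
        push_cast at this ⊢
        exact this
      have h2 : (24 * (p.2 : ZMod 7) + 1) = ((6 * b + 1 : ℤ) : ZMod 7) ^ 2 := by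
        have e : 24 * (p.2 : ℤ) + 1 = (6 * b + 1) ^ 2 := by
          rw [← hb]; linear_combination 12 * eA_two b
        have := congrArg (Int.cast : ℤ → ZMod 7) e
        push_cast at this ⊢
        exact this
      have h3 : (p.1 : ZMod 7) + (p.2 : ZMod 7) = 0 ∨ (p.1 : ZMod 7) + (p.2 : ZMod 7) = 5 := by
        have e : (p.1 : ZMod 7) + (p.2 : ZMod 7) = ((m : ℕ) : ZMod 7) := by
          rw [← hp]; push_cast; rfl
        rw [e]
        rcases hm with hm | hm
        · left
          rw [(ZMod.natCast_eq_zero_iff m 7)]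
          omega
        · right
          have : ((m : ℕ) : ZMod 7) = ((5 : ℕ) : ZMod 7) := by
            rw [ZMod.natCast_eq_natCast_iff]
            exact hm
          rw [this]; rfl
      have h4 := zmod_key _ _ _ _ h1 h2 h3
      have e : (((p.1 : ℤ) * (sg a * (2 * a + 1) * (6 * b + 1)) : ℤ) : ZMod 7) =
          (sg a : ZMod 7) * ((p.1 : ZMod 7) * (((2 * a + 1 : ℤ) : ZMod 7) * ((6 * b + 1 : ℤ) : ZMod 7))) := by
        push_cast
        ring
      rw [e, h4, mul_zero]
    · rw [if_neg hb]; simp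
  · rw [if_neg ha]; simp

instance : Fact (Nat.Prime 7) := ⟨by norm_num⟩

theorem S_dvd (m : ℕ) (hm : m % 7 = 0 ∨ m % 7 = 5) : (7 : ℤ) ∣ S m := by
  have hE : constantCoeff (red 7 E1) = 1 := by
    rw [← coeff_zero_eq_constantCoeff_apply, coeff_red, coeff_zero_eq_constantCoeff_apply, const_E1]
    rfl
  have h1 : ∀ r, (r = 0 ∨ r = 5) → ∀ m, m % 7 = r →
      coeff m (red 7 (6 * sS) * expand 7 (by norm_num) (red 7 E1)) = 0 := by
    intro r hr m hm
    have h2 : red 7 (6 * sS) * expand 7 (by norm_num) (red 7 E1) = red 7 (theta (2 * E1 ^ 3) * A1) := by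
      rw [← pow_eq_expand 7, ← map_pow, ← map_mul, ← key_mul]
      congr 1
      ring
    rw [h2, coeff_red]
    exact coeff_key m (by omega)
  have h3 : coeff m (red 7 (6 * sS)) = 0 := by
    rcases hm with hm | hm
    · exact coeff_zero_of_mul_expand 7 (by norm_num) _ _ hE 0 (h1 0 (Or.inl rfl)) m hm
    · exact coeff_zero_of_mul_expand 7 (by norm_num) _ _ hE 5 (h1 5 (Or.inr rfl)) m hm
  rw [coeff_red] at h3
  have h4 : (7 : ℤ) ∣ coeff m (6 * sS) := by
    have := (ZMod.intCast_zmod_eq_zero_iff_dvd (coeff m (6 * sS)) 7).1 h3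
    exact_mod_cast this
  have h5 : coeff m (6 * sS) = 6 * ((-1) ^ m * S m) := by
    have e : (6 : ℤ⟦X⟧) = C 6 := (map_ofNat C 6).symm
    rw [e, coeff_C_mul, sS, coeff_mk]
  rw [h5] at h4
  have h6 : (7 : ℤ) ∣ (-1) ^ m * S m := by
    have hcop : IsCoprime (7 : ℤ) 6 := by
      refine ⟨1, -1, by norm_num⟩
    exact hcop.dvd_of_dvd_mul_left h4
  rcases neg_one_pow_eq_or ℤ m with h | h
  · rw [h, one_mul] at h6; exact h6
  · rw [h, neg_one_mul, dvd_neg] at h6; exact h6

/-- `S(7n)` and `S(7n+5)` are divisible by `7` for all `n` -/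
theorem result : ∀ n : ℕ, (7 : ℤ) ∣ S (7 * n) ∧ (7 : ℤ) ∣ S (7 * n + 5) := by
  intro n
  exact ⟨S_dvd _ (Or.inl (by omega)), S_dvd _ (Or.inr (by omega))⟩

end Pool.Agent.Results.MP_ec0d67_nt.ModSeven
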